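import Pool.Agent.V11198.SepCut
import Pool.Agent.V11198.SepHyp
import Pool.Agent.V11198.SepAut

/-!
# A non-hyperbolic vertex-transitive graph with logarithmic separation profile

The graph is `GX M`: a lamplighter-like graph whose walker moves on the 3-regular tree (seen as a
rooted-at-an-end binary tree `ℤ × ℕ`), the lamp group being a direct limit of free products of
virtually free groups. It is the limit of a sequence of tree-like graphs, where at stage `j` very
long cycles (of length related to `M j`) are killed.
-/

namespace Pool.Agent.Results.MP_fe703c_gt.NonHyperbolicLogSep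

open V11198.Sep

theorem natlog_le (n : ℕ) (hn : 2 ≤ n) : (Nat.log 2 n : ℝ) * Real.log 2 ≤ Real.log n := by
  rw [← Real.log_pow]
  apply Real.log_le_log (by positivity)
  exact_mod_cast Nat.pow_log_le_self 2 (by omega)

/-- For every non-decreasing unbounded `f` there is a connected, locally finite,
vertex-transitive graph with logarithmic separation profile (even `sep Γ n ≤ max (f n) 24`)
which is not hyperbolic. -/
theorem result (f : ℕ → ℕ) (hf : Monotone f) (hunb : ∀ N, ∃ n, N ≤ f n) :
    ∃ (V : Type) (Γ : SimpleGraph V), Γ.Connected ∧ (∀ v, (Γ.neighborSet v).Finite) ∧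
      (∀ v w, ∃ φ : Γ ≃g Γ, φ v = w) ∧ LogSeparation Γ ∧ (∀ n, sep Γ n ≤ max (f n) 24) ∧
      ¬ Hyperbolic Γ := by
  -- the smaller of `f` and the logarithm
  let h : ℕ → ℕ := fun n => min (f n) (Nat.log 2 n)
  have hmono : Monotone h := fun a b hab => min_le_min (hf hab) (Nat.log_mono_right hab)
  have hh : ∀ N, ∃ n, N ≤ h n := by
    intro N
    obtain ⟨n, hn⟩ := hunb N
    refine ⟨max n (2 ^ N), le_min (hn.trans (hf (le_max_left _ _))) ?_⟩
    have := Nat.log_mono_right (b := 2) (le_max_right n (2 ^ N))
    rwa [Nat.log_pow (by norm_num)] at this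
  choose a ha using hh
  let N : ℕ → ℕ := fun j => 1 + j + ∑ i ∈ Finset.range (j + 1), a (BB (i + 1))
  have hNmono : Monotone N := by
    apply monotone_nat_of_le_succ
    intro j
    simp only [N]
    rw [Finset.sum_range_succ _ (j + 1)]
    omega
  let M : ℕ → ℕ := fun j => 2 * N j + 1
  have hodd : ∀ j, Odd (M j) := fun j => ⟨N j, rfl⟩
  have h1 : ∀ j, 1 < M j := fun j => by simp only [M, N]; omega
  have hMmono : Monotone M := fun i j hij => by
    have := hNmono hij
    simp only [M]
    omega
  have hMunb : ∀ K, ∃ J, K ≤ M J := fun K => ⟨K, by simp only [M, N]; omega⟩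
  have hlarge : ∀ j, BB (j + 1) ≤ h (N j) := by
    intro j
    refine (ha (BB (j + 1))).trans (hmono ?_)
    have : a (BB (j + 1)) ≤ ∑ i ∈ Finset.range (j + 1), a (BB (i + 1)) :=
      Finset.single_le_sum (f := fun i => a (BB (i + 1))) (fun _ _ => Nat.zero_le _)
        (Finset.mem_range.mpr (Nat.lt_succ_self j))
    simp only [N]
    omega
  have hsep : ∀ n, sep (GX M) n ≤ max (h n) 24 := by
    intro n
    apply sep_le
    intro Λ hΛ hn
    have hex : ∃ J, 2 * n ≤ M J := hMunb _
    classical
    have hJ := Nat.find_spec hex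
    have hc := cut_GX M hodd hMmono (Nat.find hex) n hJ Λ hΛ hn
    refine hc.trans ?_
    cases hk : Nat.find hex with
    | zero => exact le_max_of_le_right (le_refl _)
    | succ k =>
      apply le_max_of_le_left
      refine (hlarge k).trans (hmono ?_)
      have := Nat.find_min hex (m := k) (by omega)
      simp only [M] at this
      omega
  refine ⟨VX M, GX M, GX_connected M hodd h1, GX_locfin M, GX_trans M, ?_, ?_,
    GX_not_hyp M hodd h1 hMmono hMunb⟩
  · refine ⟨24 / Real.log 2, fun n hn => ?_⟩
    have hl2 : 0 < Real.log 2 := Real.log_pos (by norm_num)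
    have h2 := natlog_le n hn
    have h3 : sep (GX M) n ≤ 24 * Nat.log 2 n := by
      refine (hsep n).trans (max_le ?_ ?_)
      · have : h n ≤ Nat.log 2 n := min_le_right _ _
        omega
      · have : 1 ≤ Nat.log 2 n := Nat.log_pos (by norm_num) hn
        omega
    have h4 : (sep (GX M) n : ℝ) ≤ 24 * (Nat.log 2 n : ℝ) := by exact_mod_cast h3
    rw [div_mul_eq_mul_div, le_div_iff₀ hl2]
    nlinarith
  · intro n
    exact (hsep n).trans (max_le_max (min_le_left _ _) (le_refl _))

end Pool.Agent.Results.MP_fe703c_gt.NonHyperbolicLogSep
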